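import Pool.Agent.Helper97.Tns.Goals

open MvPolynomial

namespace Pool.Agent.Helper97.Tns

/-- A semistable family cannot be destabilised by integer weights. -/
theorem destab {n N : ℕ} {a : Fin N → ℕ} (w : ∀ j, Ten n (a j)) (hss : Semistable w)
    (h0 : ∀ j, a j = 0 → w j = 0) (U : Matrix (Fin n) (Fin n) ℂ) (hU : U.det ≠ 0)
    (hn : 0 < n) (l : Fin n → ℤ) (hl : ∑ i, l i < 0)
    (h : ∀ (j : Fin N) (I : Fin (a j) → Fin n), w j (fun t i => U i (I t)) ≠ 0 →
      0 ≤ ∑ t, l (I t)) : False := by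
  classical
  obtain ⟨c, hc, hss⟩ := hss
  obtain ⟨μ, hμ⟩ := IsAlgClosed.exists_pow_nat_eq (U.det)⁻¹ hn
  set l' : Fin n → ℤ := fun i => n * l i - ∑ k, l k with hl'
  have hsum' : ∑ i, l' i = 0 := by
    simp only [hl', Finset.sum_sub_distrib, ← Finset.mul_sum, Finset.sum_const,
      Finset.card_univ, Fintype.card_fin, nsmul_eq_mul, sub_self]
  -- the bound
  set B : ℝ := ∑ j, ∑ I : Fin (a j) → Fin n, ‖μ‖ ^ a j * ‖w j (fun t i => U i (I t))‖ with hB
  have hBj : ∀ (j : Fin N) (I : Fin (a j) → Fin n),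
      ‖μ‖ ^ a j * ‖w j (fun t i => U i (I t))‖ ≤ B := by
    intro j I
    have h1 : ‖μ‖ ^ a j * ‖w j (fun t i => U i (I t))‖ ≤
        ∑ I : Fin (a j) → Fin n, ‖μ‖ ^ a j * ‖w j (fun t i => U i (I t))‖ :=
      Finset.single_le_sum (f := fun I : Fin (a j) → Fin n =>
        ‖μ‖ ^ a j * ‖w j (fun t i => U i (I t))‖) (fun _ _ => by positivity) (Finset.mem_univ I)
    refine h1.trans ?_
    exact Finset.single_le_sum (f := fun j => ∑ I : Fin (a j) → Fin n,
      ‖μ‖ ^ a j * ‖w j (fun t i => U i (I t))‖)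
      (fun _ _ => Finset.sum_nonneg fun _ _ => by positivity) (Finset.mem_univ j)
  have hB0 : 0 ≤ B := Finset.sum_nonneg fun _ _ => Finset.sum_nonneg fun _ _ => by positivity
  set s : ℝ := B / c with hs
  have hs0 : 0 ≤ s := by positivity
  have hsB : Real.exp (-s) * B < c := by
    have h1 : s < Real.exp s := lt_of_lt_of_le (by linarith) (Real.add_one_le_exp s)
    have h2 : B = s * c := by rw [hs]; field_simp
    rw [h2, Real.exp_neg, inv_mul_lt_iff₀ (Real.exp_pos s)]
    exact mul_lt_mul_of_pos_right h1 hc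
  -- the matrix
  let D : Matrix (Fin n) (Fin n) ℂ := Matrix.diagonal fun i => Complex.exp (-s * l' i)
  let A : Matrix (Fin n) (Fin n) ℂ := μ • (U * D)
  have hdetD : D.det = 1 := by
    simp only [D]
    rw [Matrix.det_diagonal, ← Complex.exp_sum, ← Finset.mul_sum]
    have : (∑ i, (l' i : ℂ)) = 0 := by exact_mod_cast congrArg (Int.cast : ℤ → ℂ) hsum'
    rw [this, mul_zero, Complex.exp_zero]
  have hdetA : A.det = 1 := by
    simp only [A]
    rw [Matrix.det_smul, Fintype.card_fin, hμ, Matrix.det_mul, hdetD, mul_one,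
      inv_mul_cancel₀ hU]
  obtain ⟨j, I, hjI⟩ := hss A hdetA
  have hval : w j (fun t i => A i (I t)) =
      (∏ t, (μ * Complex.exp (-s * l' (I t)))) * w j (fun t i => U i (I t)) := by
    rw [← smul_eq_mul, ← MultilinearMap.map_smul_univ]
    congr 1
    funext t i
    simp only [A, D, Matrix.smul_apply, smul_eq_mul, Matrix.mul_diagonal, Pi.smul_apply]
    ring
  by_cases hz : w j (fun t i => U i (I t)) = 0
  · rw [hval, hz, mul_zero, norm_zero] at hjI
    linarith
  · have ha : 1 ≤ a j := by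
      by_contra hcon
      have : a j = 0 := by omega
      apply hz
      rw [h0 j this]
      rfl
    have h1 := h j I hz
    have h2 : (1 : ℤ) ≤ ∑ t, l' (I t) := by
      simp only [hl', Finset.sum_sub_distrib, ← Finset.mul_sum, Finset.sum_const,
        Finset.card_univ, Fintype.card_fin, nsmul_eq_mul]
      have h3 : (0 : ℤ) ≤ n * ∑ t, l (I t) := by positivity
      have h4 : (1 : ℤ) ≤ a j * -(∑ k, l k) := by
        have : (1 : ℤ) ≤ a j := by exact_mod_cast ha
        nlinarith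
      linarith
    have hn1 : ‖∏ t, (μ * Complex.exp (-s * l' (I t)))‖ ≤ ‖μ‖ ^ a j * Real.exp (-s) := by
      rw [Finset.prod_mul_distrib, Finset.prod_const, Finset.card_univ, Fintype.card_fin,
        norm_mul, norm_pow, ← Complex.exp_sum, ← Finset.mul_sum, Complex.norm_exp]
      apply mul_le_mul_of_nonneg_left _ (by positivity)
      apply Real.exp_le_exp.2
      have h5 : (-(s : ℂ) * ∑ t, (l' (I t) : ℂ)).re = -s * ((∑ t, l' (I t) : ℤ) : ℝ) := by
        have : (-(s : ℂ) * ∑ t, (l' (I t) : ℂ)) = ((-s * ((∑ t, l' (I t) : ℤ) : ℝ) : ℝ) : ℂ) := by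
          push_cast
          ring
        rw [this, Complex.ofReal_re]
      rw [h5]
      have h6 : (1 : ℝ) ≤ ((∑ t, l' (I t) : ℤ) : ℝ) := by exact_mod_cast h2
      nlinarith
    have hfin : ‖w j (fun t i => A i (I t))‖ < c := by
      rw [hval, norm_mul]
      calc ‖∏ t, (μ * Complex.exp (-s * l' (I t)))‖ * ‖w j (fun t i => U i (I t))‖
          ≤ ‖μ‖ ^ a j * Real.exp (-s) * ‖w j (fun t i => U i (I t))‖ := by gcongr
        _ = Real.exp (-s) * (‖μ‖ ^ a j * ‖w j (fun t i => U i (I t))‖) := by ring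
        _ ≤ Real.exp (-s) * B := by
          apply mul_le_mul_of_nonneg_left (hBj j I) (Real.exp_pos _).le
        _ < c := hsB
    linarith

theorem Phi_zero_C (n : ℕ) (x : ℂ) : Phi n 0 (C x) = x := by
  show ∑ m ∈ (genD n ^ 0).support,
    (m.prod fun _ k => (k.factorial : ℂ)) * coeff m (genD n ^ 0) * coeff m (C x) = x
  rw [pow_zero]
  have h1 : (1 : RR n).support = {0} := by
    rw [show (1 : RR n) = monomial 0 1 from rfl, support_monomial, if_neg one_ne_zero]
  rw [h1, Finset.sum_singleton]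
  simp

theorem Ent_isEmpty {n : ℕ} {ι : Type} [Fintype ι] [IsEmpty ι]
    (T : MultilinearMap ℂ (fun _ : ι => (Fin n → ℂ)) ℂ) (I : ι → Fin n)
    (v : ι → Fin n → ℂ) : Ent T I = C (T v) := by
  unfold Ent
  refine (Finset.sum_eq_single I (fun J _ hJ => absurd (Subsingleton.elim J I) hJ)
    (fun h => absurd (@Finset.mem_univ _ (_) _) h)).trans ?_
  rw [Finset.univ_eq_empty, Finset.prod_empty, mul_one]
  congr 2
  exact Subsingleton.elim _ _

theorem alg (hKAL : S_KAL) (hFM : S_FM) (hLIST : S_LIST) : S_ALG := by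
  classical
  intro n hn N a w hss T hT
  by_cases h0 : ∃ j, a j = 0 ∧ w j ≠ 0
  · obtain ⟨j, haj, hwj⟩ := h0
    have hemp : IsEmpty (Fin (a j)) := by rw [haj]; exact Fin.isEmpty
    have hemp2 : ∀ k : ℕ, IsEmpty (Fin k × Fin (a j)) := fun k => inferInstance
    let I : Fin (a j) → Fin n := fun _ => ⟨0, hn⟩
    have h1 : w j (fun t i => (1 : Matrix (Fin n) (Fin n) ℂ) i (I t)) ≠ 0 := by
      intro h2
      apply hwj
      refine MultilinearMap.ext fun v => ?_
      rw [show v = (fun t i => (1 : Matrix (Fin n) (Fin n) ℂ) i (I t)) from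
        Subsingleton.elim _ _, h2]
      rfl
    obtain ⟨k, hk, hk2⟩ := hT 1 (by simp) j I h1
    refine ⟨0, 0, [⟨(j, k), fun _ => ⟨0, hn⟩⟩], by simp, by simpa using hk, by simp [haj], ?_⟩
    simp only [List.map_cons, List.map_nil, List.prod_cons, List.prod_nil, mul_one, pow_zero]
    have := hemp2 k
    rw [Ent_isEmpty (T j k) _ (fun t i => (1 : Matrix (Fin n) (Fin n) ℂ) i (I t.2)), Phi_zero_C]
    exact hk2
  · push Not at h0
    let 𝒥 := {jk : Fin N × ℕ // 1 ≤ jk.2}
    let ι : 𝒥 → Type := fun jk => Fin jk.1.2 × Fin (a jk.1.1)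
    let hι : ∀ jk : 𝒥, Fintype (ι jk) := fun jk =>
      inferInstanceAs (Fintype (Fin jk.1.2 × Fin (a jk.1.1)))
    let T' : ∀ jk : 𝒥, MultilinearMap ℂ (fun _ : ι jk => (Fin n → ℂ)) ℂ := fun jk =>
      T jk.1.1 jk.1.2
    by_cases hint : IsIntegral (Algebra.adjoin ℂ {F : RR n | ∃ j I, F = Ent (T' j) I}) (genD n)
    · obtain ⟨r, l, L, hL, hdeg, hne⟩ := hLIST n hn 𝒥 ι T' hint
      refine ⟨r, l, L.map fun τ => ⟨τ.1.1, τ.2⟩, ?_, ?_, ?_, ?_⟩
      · simpa using hL
      · intro τ hτ
        rw [List.mem_map] at hτ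
        obtain ⟨τ', -, rfl⟩ := hτ
        exact τ'.1.2
      · rw [hdeg, List.map_map]
        congr 3
        funext τ
        simp only [Function.comp_apply]
        rw [← Nat.card_eq_fintype_card]
        show Nat.card (Fin τ.1.1.2 × Fin (a τ.1.1.1)) = _
        rw [Nat.card_prod, Nat.card_fin, Nat.card_fin]
      · rw [List.map_map]
        convert hne using 4
        exact List.map_congr_left fun _ _ => rfl
    · exfalso
      obtain ⟨Γ, _, _, _, γ, U, hU, hγ, hpos⟩ := hKAL n 𝒥 ι T' hint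
      -- count vectors
      let cnt : (Σ j : Fin N, (Fin (a j) → Fin n)) → Fin n → ℤ := fun τ i =>
        ((Finset.univ.filter fun t => τ.2 t = i).card : ℤ)
      have hcntΓ : ∀ (τ : Σ j : Fin N, (Fin (a j) → Fin n)),
          ∑ i, cnt τ i • γ i = ∑ t, γ (τ.2 t) := by
        intro τ
        rw [← Finset.sum_fiberwise (s := Finset.univ) (g := τ.2) (f := fun t => γ (τ.2 t))]
        refine Finset.sum_congr rfl fun i _ => ?_
        rw [Finset.sum_congr rfl (g := fun _ => γ i) (fun t ht => by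
          rw [(Finset.mem_filter.1 ht).2]), Finset.sum_const]
        simp only [cnt, natCast_zsmul]
      have hcntZ : ∀ (τ : Σ j : Fin N, (Fin (a j) → Fin n)) (l : Fin n → ℤ),
          ∑ i, cnt τ i * l i = ∑ t, l (τ.2 t) := by
        intro τ l
        rw [← Finset.sum_fiberwise (s := Finset.univ) (g := τ.2) (f := fun t => l (τ.2 t))]
        refine Finset.sum_congr rfl fun i _ => ?_
        rw [Finset.sum_congr rfl (g := fun _ => l i) (fun t ht => by
          rw [(Finset.mem_filter.1 ht).2]), Finset.sum_const]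
        simp only [cnt, nsmul_eq_mul]
      let S : Finset (Fin n → ℤ) :=
        (Finset.univ.filter fun τ : (Σ j : Fin N, (Fin (a j) → Fin n)) =>
          w τ.1 (fun t i => U i (τ.2 t)) ≠ 0).image cnt
      obtain ⟨l, hl1, hl2⟩ := hFM Γ n S (fun _ => 1) γ (by
        intro m hm
        obtain ⟨τ, hτ, rfl⟩ := Finset.mem_image.1 hm
        have hτ2 := (Finset.mem_filter.1 hτ).2
        rw [hcntΓ]
        obtain ⟨k, hk, hk2⟩ := hT U hU τ.1 τ.2 hτ2
        have h3 := hpos ⟨(τ.1, k), hk⟩ (fun t => τ.2 t.2) hk2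
        have h4 : ∑ t : Fin k × Fin (a τ.1), γ (τ.2 t.2) = k • ∑ t, γ (τ.2 t) := by
          rw [Fintype.sum_prod_type]
          show ∑ _x : Fin k, ∑ y, γ (τ.2 y) = _
          rw [Finset.sum_const, Finset.card_univ, Fintype.card_fin]
        have h5 : 0 ≤ k • ∑ t, γ (τ.2 t) := by
          rw [← h4]
          convert h3
        by_contra hcon
        push Not at hcon
        have h6 : k • ∑ t, γ (τ.2 t) < 0 := nsmul_neg hcon (by omega)
        exact absurd h5 (not_le.2 h6)) (by simpa using hγ)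
      refine destab w hss (fun j hj => h0 j hj) U hU hn l (by simpa using hl2) ?_
      intro j I hI
      have h3 := hl1 (cnt ⟨j, I⟩) (Finset.mem_image.2 ⟨⟨j, I⟩, by simpa using hI, rfl⟩)
      rwa [hcntZ] at h3

end Pool.Agent.Helper97.Tns
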