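import Pool.Agent.Helper16.Abund.Defs

/-!
Holomorphic tensor fields on complex manifolds modelled on `Fin n → ℂ`.

A covariant tensor field of degree `a` with values in the `b`-th power of the canonical bundle
(`b` an integer) on `X` is recorded by its value at `x`, written in the preferred chart
`z = chartAt x`: a multilinear form `s x` on `(ℂⁿ)^a`, the coefficient of `(dz₁ ∧ ... ∧ dzₙ)^b`.
-/

open scoped Manifold ContDiff ENNReal
open MeasureTheory
open Pool.Agent.Helper16.Abund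

namespace Pool.Agent.Helper97.Tns

/-- Multilinear forms of degree `a` on `ℂⁿ`. -/
abbrev Ten (n a : ℕ) := MultilinearMap ℂ (fun _ : Fin a => (Fin n → ℂ)) ℂ

/-- The derivative of `f` at `x`, in the preferred charts at `x` and at `f x`. -/
noncomputable def der (n : ℕ) {X Y : Type*} [TopologicalSpace X] [ChartedSpace (Fin n → ℂ) X]
    [TopologicalSpace Y] [ChartedSpace (Fin n → ℂ) Y] (f : X → Y) (x : X) :
    (Fin n → ℂ) →L[ℂ] (Fin n → ℂ) :=
  mfderiv 𝓘(ℂ, Fin n → ℂ) 𝓘(ℂ, Fin n → ℂ) f x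

/-- `s` is a holomorphic section of `(Ω¹)^{⊗a} ⊗ K^b`: for every holomorphic map `ψ` with
nonvanishing Jacobian from an open subset `V` of `ℂⁿ` to `Y`, the components of the pulled back
tensor, with respect to constant vector fields `w₁, ..., w_a`, are holomorphic on `V`. -/
def IsTensor (n : ℕ) (Y : Type*) [TopologicalSpace Y] [ChartedSpace (Fin n → ℂ) Y]
    (a : ℕ) (b : ℤ) (s : Y → Ten n a) : Prop :=
  ∀ (V : Set (Fin n → ℂ)) (ψ : (Fin n → ℂ) → Y), IsOpen V →
    MDifferentiableOn 𝓘(ℂ, Fin n → ℂ) 𝓘(ℂ, Fin n → ℂ) ψ V → (∀ z ∈ V, jac n ψ z ≠ 0) →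
    ∀ w : Fin a → Fin n → ℂ,
      DifferentiableOn ℂ (fun z => s (ψ z) (fun t => der n ψ z (w t)) * jac n ψ z ^ b) V

/-- The value at `p y` of the tensor which is `s y` at the point `y`, transported by `p`. -/
noncomputable def push (n : ℕ) {X Y : Type*} [TopologicalSpace X] [ChartedSpace (Fin n → ℂ) X]
    [TopologicalSpace Y] [ChartedSpace (Fin n → ℂ) Y] (p : Y → X) {a : ℕ} (b : ℤ)
    (s : Y → Ten n a) (y : Y) : Ten n a :=
  (jac n p y ^ b)⁻¹ • (s y).compLinearMap fun _ => ((der n p y).inverse : (Fin n → ℂ) →ₗ[ℂ] _)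

/-- The tensor field `s` on the covering space `Y` of `X` is in `L^q` over `X`: near every point
`x₀` of `X`, in the chart `z = chartAt x₀`, the sum over the fibre of `p` of the `q`-th powers of
the absolute values of the components of `s` is integrable. -/
def TensorLq (n : ℕ) {X Y : Type*} [TopologicalSpace X] [ChartedSpace (Fin n → ℂ) X]
    [TopologicalSpace Y] [ChartedSpace (Fin n → ℂ) Y] (p : Y → X) {a : ℕ} (b : ℤ) (q : ℝ)
    (s : Y → Ten n a) : Prop :=
  ∀ x₀ : X, ∃ r : ℝ, 0 < r ∧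
    Metric.ball (chartAt (Fin n → ℂ) x₀ x₀) r ⊆ (chartAt (Fin n → ℂ) x₀).target ∧
    ∀ w : Fin a → Fin n → ℂ,
      ∫⁻ z in Metric.ball (chartAt (Fin n → ℂ) x₀ x₀) r,
        ∑' y : p ⁻¹' {(chartAt (Fin n → ℂ) x₀).symm z},
          ENNReal.ofReal (‖push n p b s y.1 (fun t => der n (chartAt (Fin n → ℂ) x₀).symm z (w t)) *
            jac n (chartAt (Fin n → ℂ) x₀).symm z ^ b‖ ^ q) < ⊤

universe u

/-- `T` is the value at `x` of a holomorphic section `s` of `(Ω¹)^{⊗a} ⊗ K^b` on a covering space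
`p : Y → X` (finite or infinite, Galois or not) which is in `L^q` over `X` for some `q > 0`: the
value of `s` at some point `y` over `x`, transported to `x` by `p`. -/
def Realized (n : ℕ) (X : Type u) [TopologicalSpace X] [ChartedSpace (Fin n → ℂ) X]
    (x : X) (a : ℕ) (b : ℤ) (T : Ten n a) : Prop :=
  ∃ (Y : Type u) (_ : TopologicalSpace Y) (_ : ChartedSpace (Fin n → ℂ) Y)
    (_ : IsManifold 𝓘(ℂ, Fin n → ℂ) ω Y) (p : Y → X) (q : ℝ) (s : Y → Ten n a) (y : Y),
    IsCoveringMap p ∧ IsLocalDiffeomorph 𝓘(ℂ, Fin n → ℂ) 𝓘(ℂ, Fin n → ℂ) ω p ∧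
      0 < q ∧ IsTensor n Y a b s ∧ TensorLq n p b q s ∧ p y = x ∧ T = push n p b s y

/-- Every nonzero tangent vector `v` at `x` is detected by a holomorphic section of
`(Ω¹)^{⊗a} ⊗ K^b` with `a + n b > 0` (`b` may be negative), which is in `L^q` over `X`, on some
covering space of `X`: the value `T(v, ..., v)` at `x` is not zero. -/
def TangentDetectedAt (n : ℕ) (X : Type u) [TopologicalSpace X] [ChartedSpace (Fin n → ℂ) X]
    (x : X) : Prop :=
  ∀ v : Fin n → ℂ, v ≠ 0 → ∃ (a : ℕ) (b : ℤ) (T : Ten n a),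
    0 < (a : ℤ) + n * b ∧ Realized n X x a b T ∧ T (fun _ => v) ≠ 0

/-- Finitely many values `T j` at `x` of holomorphic sections of `(Ω¹)^{⊗a} ⊗ K^b` (with
`a + n b > 0`, on covering spaces of `X`, in `L^q` over `X`) form a semistable vector for
`SL(n, ℂ)`: the orbit of `(T j)` stays away from `0`. -/
def TensorSemistableAt (n : ℕ) (X : Type u) [TopologicalSpace X] [ChartedSpace (Fin n → ℂ) X]
    (x : X) : Prop :=
  ∃ (N : ℕ) (a : Fin N → ℕ) (b : Fin N → ℤ) (T : ∀ j, Ten n (a j)),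
    (∀ j, 0 < (a j : ℤ) + n * b j ∧ Realized n X x (a j) (b j) (T j)) ∧
    ∃ c : ℝ, 0 < c ∧ ∀ A : Matrix (Fin n) (Fin n) ℂ, A.det = 1 →
      ∃ (j : Fin N) (I : Fin (a j) → Fin n), c ≤ ‖T j (fun t i => A i (I t))‖

end Pool.Agent.Helper97.Tns
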