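import Pool.Agent.Helper97.Tns.Goals

open scoped Manifold ContDiff ENNReal Topology
open MeasureTheory MvPolynomial
open Pool.Agent.Helper16.Abund

namespace Pool.Agent.Helper97.Tns

universe u

section algebra

variable {n : ℕ}

theorem subst_genD (A : Matrix (Fin n) (Fin n) ℂ) : subst A (genD n) = C A.det * genD n := by
  have h1 : subst A (genD n) =
      ((A.map (C : ℂ →+* RR n)) * Matrix.mvPolynomialX (Fin n) (Fin n) ℂ).det := by
    unfold genD
    rw [AlgHom.map_det]
    congr 1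
    ext1 i j
    simp [subst, Matrix.mul_apply, Matrix.mvPolynomialX_apply]
  rw [h1, Matrix.det_mul]
  congr 1
  exact (RingHom.map_det (C : ℂ →+* RR n) A).symm

theorem Ent_smul {ι : Type} [Fintype ι] (c : ℂ)
    (T : MultilinearMap ℂ (fun _ : ι => (Fin n → ℂ)) ℂ) (I : ι → Fin n) :
    Ent (c • T) I = C c * Ent T I := by
  unfold Ent
  rw [Finset.mul_sum]
  refine Finset.sum_congr rfl fun J _ => ?_
  rw [_root_.smul_apply, smul_eq_mul, C_mul, mul_assoc]

theorem Phi_C_mul (r : ℕ) (c : ℂ) (F : RR n) : Phi n r (C c * F) = c * Phi n r F := by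
  rw [C_mul', map_smul, smul_eq_mul]

end algebra

section coeffs

variable {n : ℕ} {E : Type*} [NormedAddCommGroup E] [NormedSpace ℂ E]

/-- All coefficients are differentiable at `z`. -/
def CoeffDiff (P : E → RR n) (z : E) : Prop :=
  ∀ m, DifferentiableAt ℂ (fun z => coeff m (P z)) z

theorem CoeffDiff.mul {P Q : E → RR n} {z : E} (hP : CoeffDiff P z) (hQ : CoeffDiff Q z) :
    CoeffDiff (fun z => P z * Q z) z := by
  intro m
  simp only [coeff_mul]
  exact DifferentiableAt.fun_sum fun i _ => (hP _).mul (hQ _)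

theorem CoeffDiff.const (F : RR n) (z : E) : CoeffDiff (fun _ => F) z := fun _ =>
  differentiableAt_const _

theorem CoeffDiff.list_prod {α : Type*} {P : α → E → RR n} {z : E} (L : List α)
    (h : ∀ τ ∈ L, CoeffDiff (P τ) z) : CoeffDiff (fun z => (L.map fun τ => P τ z).prod) z := by
  induction L with
  | nil => simpa using CoeffDiff.const (1 : RR n) z
  | cons τ L ih =>
    simp only [List.map_cons, List.prod_cons]
    exact (h τ List.mem_cons_self).mul (ih fun τ' hτ' => h τ' (List.mem_cons_of_mem _ hτ'))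

theorem CoeffDiff.Phi {P : E → RR n} {z : E} (hP : CoeffDiff P z) (r : ℕ) :
    DifferentiableAt ℂ (fun z => Tns.Phi n r (P z)) z := by
  show DifferentiableAt ℂ (fun z => ∑ m ∈ (genD n ^ r).support,
    (m.prod fun _ k => (k.factorial : ℂ)) * coeff m (genD n ^ r) * coeff m (P z)) z
  exact DifferentiableAt.fun_sum fun i _ => (hP _).const_mul _

theorem CoeffDiff.ent {ι : Type} [Fintype ι]
    {T : E → MultilinearMap ℂ (fun _ : ι => (Fin n → ℂ)) ℂ} {z : E}
    (h : ∀ J : ι → Fin n, DifferentiableAt ℂ (fun z => T z fun t => Pi.single (J t) 1) z)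
    (I : ι → Fin n) : CoeffDiff (fun z => Ent (T z) I) z := by
  intro m
  unfold Ent
  simp only [coeff_sum, coeff_C_mul]
  exact DifferentiableAt.fun_sum fun J _ => (h J).mul_const _

end coeffs

theorem jac_eq_det {n : ℕ} {X Y : Type*} [TopologicalSpace X] [ChartedSpace (Fin n → ℂ) X]
    [TopologicalSpace Y] [ChartedSpace (Fin n → ℂ) Y] (f : X → Y) (x : X) :
    jac n f x = (LinearMap.toMatrix' (der n f x : (Fin n → ℂ) →ₗ[ℂ] (Fin n → ℂ))).det := by
  rw [LinearMap.det_toMatrix']
  rfl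

theorem kappa (h1 : S_PHI1) (hE : S_ENT) (hC : S_CHART.{u}) : S_KAPPA.{u} := by
  intro n X _ _ _ 𝒥 ι _ b t ht r l M L hM
  apply hC n X M
  intro x₀
  set χ := chartAt (Fin n → ℂ) x₀ with hχ
  have hx₀s : x₀ ∈ χ.source := mem_chart_source _ x₀
  -- the tensors in the chart
  let S : ∀ τ : (Σ j, ι j → Fin n), (Fin n → ℂ) →
      MultilinearMap ℂ (fun _ : ι τ.1 => (Fin n → ℂ)) ℂ := fun τ z =>
    (jac n χ.symm z ^ b τ.1) • (t τ.1 (χ.symm z)).compLinearMap fun _ =>
      (der n χ.symm z : (Fin n → ℂ) →ₗ[ℂ] (Fin n → ℂ))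
  have key : ∀ z ∈ χ.target,
      Phi n r ((L.map fun τ => Ent (t τ.1 (χ.symm z)) τ.2).prod * genD n ^ l) *
        jac n χ.symm z ^ M =
      Phi n r ((L.map fun τ => Ent (S τ z) τ.2).prod * genD n ^ l) := by
    intro z hz
    set A : Matrix (Fin n) (Fin n) ℂ :=
      LinearMap.toMatrix' (der n χ.symm z : (Fin n → ℂ) →ₗ[ℂ] (Fin n → ℂ)) with hA
    have hdet : A.det = jac n χ.symm z := (jac_eq_det _ _).symm
    have hj : jac n χ.symm z ≠ 0 := jac_chart_symm_ne_zero x₀ hz
    set d := jac n χ.symm z with hd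
    have hlin : A.toLin' = (der n χ.symm z : (Fin n → ℂ) →ₗ[ℂ] (Fin n → ℂ)) :=
      Matrix.toLin'_toMatrix' _
    have hS : ∀ L : List (Σ j, ι j → Fin n), (L.map fun τ => Ent (S τ z) τ.2).prod =
        C (d ^ (L.map fun τ => b τ.1).sum) *
          subst A (L.map fun τ => Ent (t τ.1 (χ.symm z)) τ.2).prod := by
      intro L
      induction L with
      | nil => simp
      | cons τ L ih =>
        simp only [List.map_cons, List.prod_cons, List.sum_cons, map_mul]
        rw [ih, zpow_add₀ hj, C_mul, (hE n (ι τ.1) (t τ.1 (χ.symm z)) τ.2).2.2 A, hlin]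
        simp only [S]
        rw [Ent_smul]
        ring
    rw [hS L]
    have h2 : C (d ^ (L.map fun τ => b τ.1).sum) *
        subst A (L.map fun τ => Ent (t τ.1 (χ.symm z)) τ.2).prod * genD n ^ l =
        C (d ^ (L.map fun τ => b τ.1).sum * (d ^ l)⁻¹) *
        subst A ((L.map fun τ => Ent (t τ.1 (χ.symm z)) τ.2).prod * genD n ^ l) := by
      have h3 : (C ((d ^ l)⁻¹) : RR n) * C (d ^ l) = 1 := by
        rw [← C_mul, inv_mul_cancel₀ (pow_ne_zero _ hj), C_1]
      rw [map_mul (subst A), map_pow (subst A), subst_genD, hdet, mul_pow, C_mul, ← C_pow]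
      linear_combination (-(C (d ^ (L.map fun τ => b τ.1).sum) *
        subst A (L.map fun τ => Ent (t τ.1 (χ.symm z)) τ.2).prod * genD n ^ l)) * h3
    rw [h2, Phi_C_mul, h1, hdet]
    have h4 : d ^ M = d ^ (L.map fun τ => b τ.1).sum * (d ^ l)⁻¹ * d ^ r := by
      rw [← zpow_natCast d M, hM, zpow_add₀ hj, zpow_sub₀ hj, zpow_natCast, zpow_natCast]
      field_simp
    rw [h4]
    ring
  have hev : ∀ᶠ z in 𝓝 (χ x₀), ∀ τ ∈ {τ | τ ∈ L}, ∀ J : ι τ.1 → Fin n,
      DifferentiableAt ℂ (fun z => t τ.1 (χ.symm z)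
        (fun s => der n χ.symm z ((fun s => Pi.single (J s) 1 : ι τ.1 → Fin n → ℂ) s)) *
        jac n χ.symm z ^ b τ.1) z := by
    rw [Filter.eventually_all_finite (List.finite_toSet L)]
    intro τ _
    rw [Filter.eventually_all]
    intro J
    exact ht τ.1 x₀ _
  filter_upwards [hev, χ.open_target.mem_nhds (χ.map_source hx₀s)] with z hz hzt
  have hG : DifferentiableAt ℂ (fun z =>
      Phi n r ((L.map fun τ => Ent (S τ z) τ.2).prod * genD n ^ l)) z := by
    apply CoeffDiff.Phi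
    apply CoeffDiff.mul _ (CoeffDiff.const _ _)
    apply CoeffDiff.list_prod
    intro τ hτ
    apply CoeffDiff.ent
    intro J
    refine (hz τ hτ J).congr_of_eventuallyEq (Filter.Eventually.of_forall fun z => ?_)
    simp only [S]
    rw [_root_.smul_apply, smul_eq_mul, mul_comm]
    rfl
  refine hG.congr_of_eventuallyEq ?_
  filter_upwards [χ.open_target.mem_nhds hzt] with z' hz'
  exact key z' hz'

end Pool.Agent.Helper97.Tns
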