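import Pool.Agent.Helper97.Tns.Main
import Pool.Agent.Helper97.Tns.Alg
import Pool.Agent.Helper97.Tns.Kappa
import Pool.Agent.Helper22.Tns.Phi1
import Pool.Agent.Helper27.Tns.Phi23
import Pool.Agent.Helper29.Tns.Kal
import Pool.Agent.Helper3.Tns.Chart
import Pool.Agent.Helper47.Tns.Cpt
import Pool.Agent.Helper65.Tns.Trace
import Pool.Agent.Helper75.Tns.Bound
import Pool.Agent.Helper89.Tns.FM
import Pool.Agent.Helper90.Tns.List
import Pool.Agent.Helper94.Tns.Ent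
import Pool.Agent.Helper94.Tns.Smith

open scoped Manifold ContDiff ENNReal Topology
open Pool.Agent.Helper16.Abund

namespace Pool.Agent.Helper97.Tns

universe u

theorem t_ALG : S_ALG :=
  alg (Pool.Agent.Helper29.Tns.kal Pool.Agent.Helper94.Tns.s_SMITH Pool.Agent.Helper94.Tns.s_ENT)
    Pool.Agent.Helper89.Tns.fm
    (Pool.Agent.Helper90.Tns.list Pool.Agent.Helper27.Tns.phi2 Pool.Agent.Helper27.Tns.phi3
      Pool.Agent.Helper94.Tns.s_ENT)

theorem t_KAPPA : S_KAPPA.{u} :=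
  kappa Pool.Agent.Helper22.Tns.phi1 Pool.Agent.Helper94.Tns.s_ENT Pool.Agent.Helper3.Tns.chart

theorem t_TRACE : S_TRACE.{u} :=
  Pool.Agent.Helper65.Tns.trace_of_bound Pool.Agent.Helper75.Tns.bound

theorem t_pointwise {n : ℕ} (hn : 0 < n) (X : Type u) [TopologicalSpace X]
    [ChartedSpace (Fin n → ℂ) X] [IsManifold 𝓘(ℂ, Fin n → ℂ) ω X] (x : X) :
    List.TFAE [∃ m : ℕ, 1 ≤ m ∧ ∃ c : X → ℂ, IsPluriForm n X m c ∧ c x ≠ 0,
      TangentDetectedAt n X x, TensorSemistableAt n X x] :=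
  main_pointwise t_ALG t_KAPPA t_TRACE Pool.Agent.Helper47.Tns.cpt hn X x

theorem t_global {n : ℕ} (hn : 0 < n) (X : Type u) [TopologicalSpace X]
    [ChartedSpace (Fin n → ℂ) X] [IsManifold 𝓘(ℂ, Fin n → ℂ) ω X] [CompactSpace X] :
    List.TFAE [CanSemiample n X, ∀ x : X, TangentDetectedAt n X x,
      ∀ x : X, TensorSemistableAt n X x] :=
  main t_ALG t_KAPPA t_TRACE Pool.Agent.Helper47.Tns.cpt hn X

end Pool.Agent.Helper97.Tns
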