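import Pool.Agent.Helper16.Abund.Semi
import Pool.Agent.Helper97.Tns.Defs

/-!
Exact statements of the steps of the proof of the theorem `TensorCriterion` (MP_97d78d_ag).
-/

open scoped Manifold ContDiff ENNReal Topology
open MeasureTheory MvPolynomial
open Pool.Agent.Helper16.Abund

namespace Pool.Agent.Helper97.Tns

/-! ## Algebra: polynomial functions on `n × n` matrices -/

/-- Polynomial functions on `n × n` matrices. -/
abbrev RR (n : ℕ) := MvPolynomial (Fin n × Fin n) ℂ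

/-- The determinant of the generic matrix. -/
noncomputable def genD (n : ℕ) : RR n := (Matrix.mvPolynomialX (Fin n) (Fin n) ℂ).det

open Classical in
/-- The component of index `I` of the tensor `T ∘ A`, as a polynomial in the entries of `A`; that
is, `A ↦ T (A e_{I t})_t`. -/
noncomputable def Ent {n : ℕ} {ι : Type} [Fintype ι]
    (T : MultilinearMap ℂ (fun _ : ι => (Fin n → ℂ)) ℂ) (I : ι → Fin n) : RR n :=
  ∑ J : ι → Fin n, C (T fun t => Pi.single (J t) 1) * ∏ t, X (J t, I t)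

/-- The substitution `X ↦ A X` of the generic matrix `X`. -/
noncomputable def subst {n : ℕ} (A : Matrix (Fin n) (Fin n) ℂ) : RR n →ₐ[ℂ] RR n :=
  aeval fun ij : Fin n × Fin n => ∑ k, C (A ij.1 k) * X (k, ij.2)

/-- The apolar pairing with the `r`-th power of the determinant. -/
noncomputable def Phi (n r : ℕ) : RR n →ₗ[ℂ] ℂ where
  toFun F := ∑ m ∈ (genD n ^ r).support,
    (m.prod fun _ k => (k.factorial : ℂ)) * coeff m (genD n ^ r) * coeff m F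
  map_add' F G := by simp [mul_add, Finset.sum_add_distrib]
  map_smul' c F := by
    simp only [coeff_smul, smul_eq_mul, RingHom.id_apply, Finset.mul_sum]
    exact Finset.sum_congr rfl fun m _ => by ring

/-- PHI1: covariance. -/
def S_PHI1 : Prop := ∀ (n r : ℕ) (A : Matrix (Fin n) (Fin n) ℂ) (F : RR n),
  Phi n r (subst A F) = A.det ^ r * Phi n r F

/-- PHI2: nonvanishing. -/
def S_PHI2 : Prop := ∀ n r : ℕ, Phi n r (genD n ^ r) ≠ 0

/-- PHI3: degrees. -/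
def S_PHI3 : Prop := ∀ (n r d : ℕ) (F : RR n), F.IsHomogeneous d → Phi n r F ≠ 0 → d = n * r

/-- ENT: the basic facts on `Ent`. -/
def S_ENT : Prop := ∀ (n : ℕ) (ι : Type) [Fintype ι]
  (T : MultilinearMap ℂ (fun _ : ι => (Fin n → ℂ)) ℂ) (I : ι → Fin n),
  (Ent T I).IsHomogeneous (Fintype.card ι) ∧
  (∀ A : Matrix (Fin n) (Fin n) ℂ,
    eval (fun ij => A ij.1 ij.2) (Ent T I) = T fun t i => A i (I t)) ∧
  (∀ A : Matrix (Fin n) (Fin n) ℂ,
    subst A (Ent T I) = Ent (T.compLinearMap fun _ => A.toLin') I)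

/-- SMITH: elementary divisors over a valuation ring. -/
def S_SMITH : Prop := ∀ (K : Type) [Field K] (V : ValuationSubring K) (n : ℕ)
  (M : Matrix (Fin n) (Fin n) K), ∃ (U W : Matrix (Fin n) (Fin n) V) (d : Fin n → K),
    IsUnit U.det ∧ IsUnit W.det ∧
      M = U.map (algebraMap V K) * Matrix.diagonal d * W.map (algebraMap V K)

/-- FM: a system of linear inequalities with integer coefficients that has a solution in some
linearly ordered abelian group has an integer solution. -/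
def S_FM : Prop := ∀ (Γ : Type) [AddCommGroup Γ] [LinearOrder Γ] [IsOrderedAddMonoid Γ] (n : ℕ)
  (S : Finset (Fin n → ℤ)) (u : Fin n → ℤ) (γ : Fin n → Γ),
  (∀ m ∈ S, 0 ≤ ∑ i, m i • γ i) → ∑ i, u i • γ i < 0 →
  ∃ l : Fin n → ℤ, (∀ m ∈ S, 0 ≤ ∑ i, m i * l i) ∧ ∑ i, u i * l i < 0

/-- KAL: if the determinant is not integral over the algebra generated by the components of the
tensors, then the tensors are destabilised, with weights in some ordered abelian group. -/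
def S_KAL : Prop := ∀ (n : ℕ) (𝒥 : Type) (ι : 𝒥 → Type) [∀ j, Fintype (ι j)]
  (T : ∀ j, MultilinearMap ℂ (fun _ : ι j => (Fin n → ℂ)) ℂ),
  ¬ IsIntegral (Algebra.adjoin ℂ {F : RR n | ∃ j I, F = Ent (T j) I}) (genD n) →
  ∃ (Γ : Type) (_ : AddCommGroup Γ) (_ : LinearOrder Γ) (_ : IsOrderedAddMonoid Γ)
    (γ : Fin n → Γ) (U : Matrix (Fin n) (Fin n) ℂ), U.det ≠ 0 ∧ ∑ i, γ i < 0 ∧
    ∀ (j : 𝒥) (I : ι j → Fin n), T j (fun t i => U i (I t)) ≠ 0 → 0 ≤ ∑ t, γ (I t)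

/-- LIST: extraction of a monomial. -/
def S_LIST : Prop := ∀ (n : ℕ), 0 < n → ∀ (𝒥 : Type) (ι : 𝒥 → Type) [∀ j, Fintype (ι j)]
  (T : ∀ j, MultilinearMap ℂ (fun _ : ι j => (Fin n → ℂ)) ℂ),
  IsIntegral (Algebra.adjoin ℂ {F : RR n | ∃ j I, F = Ent (T j) I}) (genD n) →
  ∃ (r l : ℕ) (L : List (Σ j, ι j → Fin n)), L ≠ [] ∧
    n * r = (L.map fun τ => Fintype.card (ι τ.1)).sum + n * l ∧
    Phi n r ((L.map fun τ => Ent (T τ.1) τ.2).prod * genD n ^ l) ≠ 0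

/-- The orbit of the tensors `w j` under `SL(n, ℂ)` stays away from `0`. -/
def Semistable {n N : ℕ} {a : Fin N → ℕ} (w : ∀ j, Ten n (a j)) : Prop :=
  ∃ c : ℝ, 0 < c ∧ ∀ A : Matrix (Fin n) (Fin n) ℂ, A.det = 1 →
    ∃ (j : Fin N) (I : Fin (a j) → Fin n), c ≤ ‖w j (fun t i => A i (I t))‖

/-- ALG: the algebraic part of the theorem. -/
def S_ALG : Prop := ∀ (n : ℕ), 0 < n → ∀ (N : ℕ) (a : Fin N → ℕ) (w : ∀ j, Ten n (a j)),
  Semistable w →
  ∀ T : ∀ (j : Fin N) (k : ℕ), MultilinearMap ℂ (fun _ : Fin k × Fin (a j) => (Fin n → ℂ)) ℂ,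
  (∀ U : Matrix (Fin n) (Fin n) ℂ, U.det ≠ 0 → ∀ (j : Fin N) (I : Fin (a j) → Fin n),
    w j (fun t i => U i (I t)) ≠ 0 → ∃ k, 1 ≤ k ∧ T j k (fun t i => U i (I t.2)) ≠ 0) →
  ∃ (r l : ℕ) (L : List (Σ jk : Fin N × ℕ, Fin jk.2 × Fin (a jk.1) → Fin n)), L ≠ [] ∧
    (∀ τ ∈ L, 1 ≤ τ.1.2) ∧
    n * r = (L.map fun τ => τ.1.2 * a τ.1.1).sum + n * l ∧
    Phi n r ((L.map fun τ => Ent (T τ.1.1 τ.1.2) τ.2).prod * genD n ^ l) ≠ 0

/-- CPT: if tensors with the property `PP` detect all nonzero vectors, finitely many of them form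
a semistable family. -/
def S_CPT : Prop := ∀ n : ℕ, 0 < n → ∀ PP : ∀ (a : ℕ) (_ : ℤ), Ten n a → Prop,
  (∀ v : Fin n → ℂ, v ≠ 0 → ∃ a b T, PP a b T ∧ T (fun _ => v) ≠ 0) →
  ∃ (N : ℕ) (a : Fin N → ℕ) (b : Fin N → ℤ) (T : ∀ j, Ten n (a j)),
    (∀ j, PP (a j) (b j) (T j)) ∧ Semistable T

/-! ## Geometry -/

universe u

/-- Tensor fields (with a general index set) on `X` whose components in the preferred charts are
holomorphic near the centres. -/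
def ChHol (n : ℕ) (X : Type u) [TopologicalSpace X] [ChartedSpace (Fin n → ℂ) X] {ι : Type}
    [Fintype ι] (b : ℤ) (t : X → MultilinearMap ℂ (fun _ : ι => (Fin n → ℂ)) ℂ) : Prop :=
  ∀ (x₀ : X) (w : ι → Fin n → ℂ), ∀ᶠ z in 𝓝 (chartAt (Fin n → ℂ) x₀ x₀),
    DifferentiableAt ℂ (fun z => t ((chartAt (Fin n → ℂ) x₀).symm z)
      (fun τ => der n (chartAt (Fin n → ℂ) x₀).symm z (w τ)) *
      jac n (chartAt (Fin n → ℂ) x₀).symm z ^ b) z

/-- CHART: pluricanonical forms can be tested in the preferred charts. -/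
def S_CHART : Prop := ∀ (n : ℕ) (X : Type u) [TopologicalSpace X] [ChartedSpace (Fin n → ℂ) X]
  [IsManifold 𝓘(ℂ, Fin n → ℂ) ω X] (M : ℕ) (c : X → ℂ),
  (∀ x₀ : X, ∀ᶠ z in 𝓝 (chartAt (Fin n → ℂ) x₀ x₀), DifferentiableAt ℂ (fun z =>
    c ((chartAt (Fin n → ℂ) x₀).symm z) * jac n (chartAt (Fin n → ℂ) x₀).symm z ^ M) z) →
  IsPluriForm n X M c

/-- KAPPA: from chart-holomorphic tensor fields to pluricanonical forms. -/
def S_KAPPA : Prop := ∀ (n : ℕ) (X : Type u) [TopologicalSpace X] [ChartedSpace (Fin n → ℂ) X]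
  [IsManifold 𝓘(ℂ, Fin n → ℂ) ω X] (𝒥 : Type) (ι : 𝒥 → Type) [∀ j, Fintype (ι j)] (b : 𝒥 → ℤ)
  (t : ∀ j, X → MultilinearMap ℂ (fun _ : ι j => (Fin n → ℂ)) ℂ),
  (∀ j, ChHol n X (b j) (t j)) → ∀ (r l M : ℕ) (L : List (Σ j, ι j → Fin n)),
  (M : ℤ) = r - l + (L.map fun τ => b τ.1).sum →
  IsPluriForm n X M fun x => Phi n r ((L.map fun τ => Ent (t τ.1 x) τ.2).prod * genD n ^ l)

/-- BOUND: the `ℓ^q` bound for the sheets of an `L^q` tensor field, in the chart at `x₀`. -/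
def S_BOUND : Prop := ∀ (n : ℕ) (X Y : Type u) [TopologicalSpace X]
  [ChartedSpace (Fin n → ℂ) X] [IsManifold 𝓘(ℂ, Fin n → ℂ) ω X] [TopologicalSpace Y]
  [ChartedSpace (Fin n → ℂ) Y] (p : Y → X),
  IsLocalDiffeomorph 𝓘(ℂ, Fin n → ℂ) 𝓘(ℂ, Fin n → ℂ) ω p →
  ∀ (a : ℕ) (b : ℤ) (s : Y → Ten n a) (q : ℝ), IsTensor n Y a b s → 0 < q →
  TensorLq n p b q s → ∀ (x₀ : X) (U : Set X) (σ : (p ⁻¹' {x₀}) → X → Y),
  Sheets (n := n) p x₀ U σ →
  ∃ r : ℝ, 0 < r ∧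
    (∀ z ∈ Metric.ball (chartAt (Fin n → ℂ) x₀ x₀) r, z ∈ (chartAt (Fin n → ℂ) x₀).target ∧
      (chartAt (Fin n → ℂ) x₀).symm z ∈ U) ∧
    ∀ w : Fin a → Fin n → ℂ,
      (∀ i, DifferentiableOn ℂ (fun z => push n p b s (σ i ((chartAt (Fin n → ℂ) x₀).symm z))
        (fun t => der n (chartAt (Fin n → ℂ) x₀).symm z (w t)) *
        jac n (chartAt (Fin n → ℂ) x₀).symm z ^ b)
        (Metric.ball (chartAt (Fin n → ℂ) x₀ x₀) r)) ∧
      ∃ u : (p ⁻¹' {x₀}) → ℝ, Summable u ∧ (∀ i, 0 ≤ u i) ∧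
        ∀ z ∈ Metric.ball (chartAt (Fin n → ℂ) x₀ x₀) r, ∀ i,
          ‖push n p b s (σ i ((chartAt (Fin n → ℂ) x₀).symm z))
            (fun t => der n (chartAt (Fin n → ℂ) x₀).symm z (w t)) *
            jac n (chartAt (Fin n → ℂ) x₀).symm z ^ b‖ ^ q ≤ u i

/-- TRACE: the traces of the tensor powers of an `L^q` tensor field. -/
def S_TRACE : Prop := ∀ (n : ℕ) (X Y : Type u) [TopologicalSpace X]
  [ChartedSpace (Fin n → ℂ) X] [IsManifold 𝓘(ℂ, Fin n → ℂ) ω X] [TopologicalSpace Y]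
  [ChartedSpace (Fin n → ℂ) Y] (p : Y → X), IsCoveringMap p →
  IsLocalDiffeomorph 𝓘(ℂ, Fin n → ℂ) 𝓘(ℂ, Fin n → ℂ) ω p →
  ∀ (a : ℕ) (b : ℤ) (s : Y → Ten n a) (q : ℝ), IsTensor n Y a b s → 0 < q →
  TensorLq n p b q s →
  ∃ t : ∀ k : ℕ, X → MultilinearMap ℂ (fun _ : Fin k × Fin a => (Fin n → ℂ)) ℂ,
    (∀ k : ℕ, ChHol n X (b * k) (t k)) ∧
    ∀ (y : Y) (v : Fin a → Fin n → ℂ), push n p b s y v ≠ 0 →
      ∃ k, 1 ≤ k ∧ t k (p y) (fun τ => v τ.2) ≠ 0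

/-- TRIV: the easy direction. -/
def S_TRIV : Prop := ∀ (n : ℕ), 0 < n → ∀ (X : Type u) [TopologicalSpace X]
  [ChartedSpace (Fin n → ℂ) X] [IsManifold 𝓘(ℂ, Fin n → ℂ) ω X],
  CanSemiample n X → ∀ x : X, TangentDetectedAt n X x

end Pool.Agent.Helper97.Tns
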