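import Pool.Agent.Helper97.Tns.Triv

open scoped Manifold ContDiff ENNReal Topology
open MeasureTheory MvPolynomial
open Pool.Agent.Helper16.Abund

namespace Pool.Agent.Helper97.Tns

universe u

theorem realized_trace (hTR : S_TRACE.{u}) {n : ℕ} {X : Type u} [TopologicalSpace X]
    [ChartedSpace (Fin n → ℂ) X] [IsManifold 𝓘(ℂ, Fin n → ℂ) ω X] {x : X} {a : ℕ} {b : ℤ}
    {T : Ten n a} (h : Realized n X x a b T) :
    ∃ t : ∀ k : ℕ, X → MultilinearMap ℂ (fun _ : Fin k × Fin a => (Fin n → ℂ)) ℂ,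
      (∀ k : ℕ, ChHol n X (b * k) (t k)) ∧
      ∀ v : Fin a → Fin n → ℂ, T v ≠ 0 → ∃ k, 1 ≤ k ∧ t k x (fun τ => v τ.2) ≠ 0 := by
  obtain ⟨Y, i1, i2, i3, p, q, s, y, hcov, hloc, hq, hs, hLq, rfl, rfl⟩ := h
  obtain ⟨t, ht, hv⟩ := hTR n X Y p hcov hloc a b s q hs hq hLq
  exact ⟨t, ht, hv y⟩

theorem sum_pos_aux {n : ℕ} {N : ℕ} {a : Fin N → ℕ} {b : Fin N → ℤ}
    (hpos : ∀ j, 0 < (a j : ℤ) + n * b j)
    (L : List (Σ jk : Fin N × ℕ, Fin jk.2 × Fin (a jk.1) → Fin n)) (hL : ∀ τ ∈ L, 1 ≤ τ.1.2) :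
    0 ≤ (((L.map fun τ => τ.1.2 * a τ.1.1).sum : ℕ) : ℤ) +
      n * (L.map fun τ => b τ.1.1 * τ.1.2).sum ∧
    (L ≠ [] → 0 < (((L.map fun τ => τ.1.2 * a τ.1.1).sum : ℕ) : ℤ) +
      n * (L.map fun τ => b τ.1.1 * τ.1.2).sum) := by
  induction L with
  | nil => simp
  | cons τ L ih =>
    have h1 := ih fun τ hτ => hL τ (List.mem_cons_of_mem _ hτ)
    have h2 : 1 ≤ τ.1.2 := hL τ List.mem_cons_self
    have h3 := hpos τ.1.1
    have h4 : 0 < (τ.1.2 : ℤ) * ((a τ.1.1 : ℤ) + n * b τ.1.1) :=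
      mul_pos (by exact_mod_cast h2) h3
    have h5 : (((List.map (fun τ => τ.1.2 * a τ.1.1) (τ :: L)).sum : ℕ) : ℤ) +
        n * (List.map (fun τ => b τ.1.1 * τ.1.2) (τ :: L)).sum =
        (τ.1.2 : ℤ) * ((a τ.1.1 : ℤ) + n * b τ.1.1) +
        ((((L.map fun τ => τ.1.2 * a τ.1.1).sum : ℕ) : ℤ) +
      n * (L.map fun τ => b τ.1.1 * τ.1.2).sum) := by
      simp only [List.map_cons, List.sum_cons]
      push_cast
      ring
    rw [h5]
    constructor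
    · linarith [h1.1]
    · intro _
      linarith [h1.1]

theorem form_of_semistable (hALG : S_ALG) (hKAPPA : S_KAPPA.{u}) (hTR : S_TRACE.{u})
    {n : ℕ} (hn : 0 < n) {X : Type u} [TopologicalSpace X]
    [ChartedSpace (Fin n → ℂ) X] [IsManifold 𝓘(ℂ, Fin n → ℂ) ω X] {x : X}
    (h : TensorSemistableAt n X x) :
    ∃ m : ℕ, 1 ≤ m ∧ ∃ c : X → ℂ, IsPluriForm n X m c ∧ c x ≠ 0 := by
  obtain ⟨N, a, b, T, hT, hss⟩ := h
  have h1 := fun j => realized_trace hTR (hT j).2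
  choose t ht hv using h1
  obtain ⟨r, l, L, hL, hL1, hdeg, hne⟩ := hALG n hn N a T hss (fun j k => t j k x)
    fun U hU j I hI => hv j _ hI
  set B : ℤ := (L.map fun τ => b τ.1.1 * τ.1.2).sum with hB
  have hpos := (sum_pos_aux (fun j => (hT j).1) L hL1).2 hL
  have hn' : (0 : ℤ) < n := by exact_mod_cast hn
  have hdeg' : (n : ℤ) * r = (((L.map fun τ => τ.1.2 * a τ.1.1).sum : ℕ) : ℤ) + n * l := by
    exact_mod_cast hdeg
  have hMpos : 0 < (r : ℤ) - l + B := by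
    have : (0 : ℤ) < n * ((r : ℤ) - l + B) := by
      rw [mul_add, mul_sub, hdeg']
      linarith
    exact pos_of_mul_pos_right this hn'.le
  refine ⟨((r : ℤ) - l + B).toNat, ?_, _, hKAPPA n X (Fin N × ℕ)
    (fun jk => Fin jk.2 × Fin (a jk.1)) (fun jk => b jk.1 * jk.2) (fun jk => t jk.1 jk.2)
    (fun jk => ht jk.1 jk.2) r l _ L ?_, hne⟩
  · omega
  · rw [Int.toNat_of_nonneg hMpos.le]

theorem semistable_of_detected (hCPT : S_CPT) {n : ℕ} (hn : 0 < n) {X : Type u}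
    [TopologicalSpace X] [ChartedSpace (Fin n → ℂ) X] {x : X} (h : TangentDetectedAt n X x) :
    TensorSemistableAt n X x := by
  obtain ⟨N, a, b, T, h1, h2⟩ := hCPT n hn
    (fun a b T => 0 < (a : ℤ) + n * b ∧ Realized n X x a b T) (by
      intro v hv
      obtain ⟨a, b, T, h1, h2, h3⟩ := h v hv
      exact ⟨a, b, T, ⟨h1, h2⟩, h3⟩)
  exact ⟨N, a, b, T, h1, h2⟩

theorem main_pointwise (hALG : S_ALG) (hKAPPA : S_KAPPA.{u}) (hTR : S_TRACE.{u}) (hCPT : S_CPT)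
    {n : ℕ} (hn : 0 < n) (X : Type u) [TopologicalSpace X]
    [ChartedSpace (Fin n → ℂ) X] [IsManifold 𝓘(ℂ, Fin n → ℂ) ω X] (x : X) :
    List.TFAE [∃ m : ℕ, 1 ≤ m ∧ ∃ c : X → ℂ, IsPluriForm n X m c ∧ c x ≠ 0,
      TangentDetectedAt n X x, TensorSemistableAt n X x] := by
  tfae_have 1 → 2 := by
    rintro ⟨m, hm, c, hc, hcx⟩
    exact detected_of_form hn hm hc hcx
  tfae_have 2 → 3 := semistable_of_detected hCPT hn
  tfae_have 3 → 1 := form_of_semistable hALG hKAPPA hTR hn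
  tfae_finish

theorem main (hALG : S_ALG) (hKAPPA : S_KAPPA.{u}) (hTR : S_TRACE.{u}) (hCPT : S_CPT)
    {n : ℕ} (hn : 0 < n) (X : Type u) [TopologicalSpace X]
    [ChartedSpace (Fin n → ℂ) X] [IsManifold 𝓘(ℂ, Fin n → ℂ) ω X] [CompactSpace X] :
    List.TFAE [CanSemiample n X, ∀ x : X, TangentDetectedAt n X x,
      ∀ x : X, TensorSemistableAt n X x] := by
  have h := main_pointwise hALG hKAPPA hTR hCPT hn X
  tfae_have 1 → 2 := triv n hn X
  tfae_have 2 → 3 := fun h' x => ((h x).out 1 2).1 (h' x)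
  tfae_have 3 → 1 := fun h' => canSemiample_of_pointwise fun x => ((h x).out 2 0).1 (h' x)
  tfae_finish

end Pool.Agent.Helper97.Tns
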