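import Pool.Agent.Helper97.Tns.Goals

open scoped Manifold ContDiff ENNReal Topology
open MeasureTheory Metric
open Pool.Agent.Helper16.Abund

namespace Pool.Agent.Helper97.Tns

universe u

theorem isCoveringMap_id' {X : Type*} [TopologicalSpace X] : IsCoveringMap (id : X → X) := fun x =>
  IsEvenlyCovered.to_isEvenlyCovered_preimage (I := Unit) ⟨inferInstance, Set.univ, trivial,
    isOpen_univ, isOpen_univ, (Homeomorph.prodPUnit (Set.univ : Set X)).symm, fun _ => rfl⟩

/-- The section of `K^m` with coefficient function `c`, as a tensor of degree `0`. -/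
noncomputable def ofForm {n : ℕ} {X : Type*} (c : X → ℂ) (y : X) : Ten n 0 :=
  MultilinearMap.constOfIsEmpty ℂ (fun _ : Fin 0 => (Fin n → ℂ)) (c y)

theorem ofForm_apply {n : ℕ} {X : Type*} (c : X → ℂ) (y : X) (v : Fin 0 → Fin n → ℂ) :
    ofForm c y v = c y := rfl

theorem push_id_ofForm {n : ℕ} {X : Type*} [TopologicalSpace X] [ChartedSpace (Fin n → ℂ) X]
    (b : ℤ) (c : X → ℂ) (y : X) (v : Fin 0 → Fin n → ℂ) :
    push n (id : X → X) b (ofForm c) y v = c y := by
  unfold push
  rw [_root_.smul_apply, jac_id, one_zpow, inv_one, one_smul]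
  rfl

theorem detected_of_form {n : ℕ} (hn : 0 < n) {X : Type u} [TopologicalSpace X]
    [ChartedSpace (Fin n → ℂ) X] [IsManifold 𝓘(ℂ, Fin n → ℂ) ω X] {x : X} {m : ℕ} (hm : 1 ≤ m)
    {c : X → ℂ} (hc : IsPluriForm n X m c) (hcx : c x ≠ 0) : TangentDetectedAt n X x := by
  intro v _
  refine ⟨0, m, push n (id : X → X) m (ofForm c) x, ?_, ?_, ?_⟩
  · have h1 : (0 : ℤ) < n := by exact_mod_cast hn
    have h2 : (0 : ℤ) < m := by exact_mod_cast hm
    have := mul_pos h1 h2
    simpa using this
  · refine ⟨X, inferInstance, inferInstance, inferInstance, id, 1, ofForm c, x,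
      isCoveringMap_id', (Diffeomorph.refl 𝓘(ℂ, Fin n → ℂ) X ω).isLocalDiffeomorph, one_pos,
      ?_, ?_, rfl, rfl⟩
    · intro V ψ hV hψ _ w
      refine (hc V ψ hV hψ).congr fun z _ => ?_
      rw [ofForm_apply, zpow_natCast]
    · intro x₀
      set χ := chartAt (Fin n → ℂ) x₀ with hχ
      have hx₀s : x₀ ∈ χ.source := mem_chart_source _ x₀
      have hF := hc χ.target χ.symm χ.open_target (mdiff_chart_symm x₀)
      have hcont : ContinuousAt (fun z => ‖c (χ.symm z) * jac n χ.symm z ^ m‖) (χ x₀) :=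
        (hF.continuousOn.continuousAt (χ.open_target.mem_nhds (χ.map_source hx₀s))).norm
      have hev := hcont.eventually (gt_mem_nhds (lt_add_one _))
      obtain ⟨r, hr, hsub⟩ := Metric.mem_nhds_iff.1
        (Filter.inter_mem (χ.open_target.mem_nhds (χ.map_source hx₀s)) hev)
      refine ⟨r, hr, fun z hz => (hsub hz).1, fun w => ?_⟩
      set C := ‖c (χ.symm (χ x₀)) * jac n χ.symm (χ x₀) ^ m‖ + 1 with hC
      calc ∫⁻ z in ball (χ x₀) r, ∑' y : id ⁻¹' {χ.symm z},
            ENNReal.ofReal (‖push n (id : X → X) m (ofForm c) y.1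
              (fun t => der n χ.symm z (w t)) * jac n χ.symm z ^ (m : ℤ)‖ ^ (1 : ℝ))
          ≤ ∫⁻ z in ball (χ x₀) r, ENNReal.ofReal C := by
            apply setLIntegral_mono measurable_const
            intro z hz
            simp only [push_id_ofForm]
            have h1 : ∑' y : id ⁻¹' {χ.symm z},
                ENNReal.ofReal (‖c y * jac n χ.symm z ^ (m : ℤ)‖ ^ (1 : ℝ)) =
                ENNReal.ofReal (‖c (χ.symm z) * jac n χ.symm z ^ (m : ℤ)‖ ^ (1 : ℝ)) := by
              have hu : ∀ y : (id ⁻¹' {χ.symm z} : Set X), y ≠ ⟨χ.symm z, rfl⟩ →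
                  ENNReal.ofReal (‖c y * jac n χ.symm z ^ (m : ℤ)‖ ^ (1 : ℝ)) = 0 := by
                intro y hy
                have hy2 : y.1 = χ.symm z := y.2
                exact absurd (Subtype.ext hy2) hy
              exact tsum_eq_single (⟨χ.symm z, rfl⟩ : (id ⁻¹' {χ.symm z} : Set X)) hu
            rw [h1, Real.rpow_one, zpow_natCast]
            exact ENNReal.ofReal_le_ofReal (hsub hz).2.le
        _ < ⊤ := by
            rw [setLIntegral_const]
            exact ENNReal.mul_lt_top ENNReal.ofReal_lt_top measure_ball_lt_top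
  · rw [push_id_ofForm]
    exact hcx

theorem triv : S_TRIV.{u} := by
  intro n hn X _ _ _ ⟨m, hm, h⟩ x
  obtain ⟨c, hc, hcx⟩ := h x
  exact detected_of_form hn hm hc hcx

end Pool.Agent.Helper97.Tns
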